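import Mathlib

set_option autoImplicit false

/-!
# Repetitions of exponent above `3/2` in words over three letters
-/

namespace Pool.Agent.U9.LT

/-- a repetition at the end of a word (which is written in reverse) -/
def badEnd (l : List (Fin 3)) : Bool :=
  (List.range l.length).any fun r => (List.range (l.length + 1)).any fun m =>
    decide (r + 1 < 2 * m) && decide (r + 1 + m ≤ l.length) &&
      (List.range m).all fun i => decide (l[i]? = l[i + (r + 1)]?)

/-- every extension by `k` letters contains a repetition -/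
def allBad : ℕ → List (Fin 3) → Bool
  | 0, _ => false
  | k + 1, l => (badEnd (0 :: l) || allBad k (0 :: l)) && (badEnd (1 :: l) || allBad k (1 :: l)) &&
      (badEnd (2 :: l) || allBad k (2 :: l))

/-- the first `n` letters in reverse -/
def stk (w : ℕ → Fin 3) : ℕ → List (Fin 3)
  | 0 => []
  | n + 1 => w n :: stk w n

theorem stk_length (w : ℕ → Fin 3) (n : ℕ) : (stk w n).length = n := by
  induction n with
  | zero => rfl
  | succ n ih => simp [stk, ih]

theorem stk_get (w : ℕ → Fin 3) (n i : ℕ) (h : i < n) : (stk w n)[i]? = some (w (n - 1 - i)) := by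
  induction n generalizing i with
  | zero => omega
  | succ n ih =>
    cases i with
    | zero => simp [stk]
    | succ i =>
      simp only [stk, List.getElem?_cons_succ]
      rw [ih i (by omega)]
      congr 2
      omega

theorem sound (w : ℕ → Fin 3) (k n : ℕ) (h : allBad k (stk w n) = true) :
    ∃ n', n' ≤ n + k ∧ badEnd (stk w n') = true := by
  induction k generalizing n with
  | zero => simp [allBad] at h
  | succ k ih =>
    have h1 : badEnd (w n :: stk w n) || allBad k (w n :: stk w n) := by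
      simp only [allBad, Bool.and_eq_true] at h
      obtain ⟨⟨h0, h1⟩, h2⟩ := h
      have : w n = 0 ∨ w n = 1 ∨ w n = 2 := by
        generalize w n = a
        fin_cases a <;> simp
      rcases this with h3 | h3 | h3 <;> rw [h3]
      · exact h0
      · exact h1
      · exact h2
    rw [Bool.or_eq_true] at h1
    rcases h1 with h1 | h1
    · exact ⟨n + 1, by omega, h1⟩
    · obtain ⟨n', h2, h3⟩ := ih (n + 1) h1
      exact ⟨n', by omega, h3⟩

theorem search : allBad 11 [] = true := by decide +kernel

theorem three (w : ℕ → Fin 3) : ∃ t r m : ℕ, 0 < r ∧ r < 2 * m ∧ t + r + m ≤ 11 ∧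
    ∀ i < m, w (t + r + i) = w (t + i) := by
  obtain ⟨n, h1, h2⟩ := sound w 11 0 search
  simp only [badEnd, List.any_eq_true, List.mem_range, Bool.and_eq_true, decide_eq_true_eq,
    List.all_eq_true, stk_length] at h2
  obtain ⟨r, hr, m, hm, ⟨h3, h4⟩, h5⟩ := h2
  refine ⟨n - (r + 1) - m, r + 1, m, by omega, h3, by omega, fun i hi => ?_⟩
  have h6 := h5 (m - 1 - i) (by omega)
  rw [stk_get w n _ (by omega), stk_get w n _ (by omega), Option.some.injEq] at h6
  rw [show n - (r + 1) - m + (r + 1) + i = n - 1 - (m - 1 - i) by omega, h6]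
  congr 1
  omega

/-- the same for maps with at most three values -/
theorem three' {X : Type} (f : ℕ → X) (h : (f '' Set.Iio 11).ncard ≤ 3) :
    ∃ t r m : ℕ, 0 < r ∧ r < 2 * m ∧ t + r + m ≤ 11 ∧ ∀ i < m, f (t + r + i) = f (t + i) := by
  classical
  have hfin : (f '' Set.Iio 11).Finite := (Set.finite_Iio 11).image f
  obtain ⟨s, hs⟩ := hfin.exists_finset_coe
  rw [← hs, Set.ncard_coe_finset] at h
  obtain ⟨g, hg⟩ : ∃ g : X → Fin 3, Set.InjOn g (s : Set X) := by
    have e := s.equivFin
    refine ⟨fun x => if hx : x ∈ s then Fin.castLE h (e ⟨x, hx⟩) else 0, ?_⟩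
    intro x hx y hy hxy
    have hx' : x ∈ s := hx
    have hy' : y ∈ s := hy
    simp only [dif_pos hx', dif_pos hy'] at hxy
    have h1 := e.injective (Fin.castLE_injective h hxy)
    exact congrArg Subtype.val h1
  obtain ⟨t, r, m, h1, h2, h3, h4⟩ := three fun k => g (f k)
  refine ⟨t, r, m, h1, h2, h3, fun i hi => hg ?_ ?_ (h4 i hi)⟩
  · rw [hs]; exact ⟨t + r + i, by simp only [Set.mem_Iio]; omega, rfl⟩
  · rw [hs]; exact ⟨t + i, by simp only [Set.mem_Iio]; omega, rfl⟩

/-- squares in words with at most two values -/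
theorem two' {X : Type} (f : ℕ → X) (h : (f '' Set.Iio 4).ncard ≤ 2) :
    ∃ t r : ℕ, 0 < r ∧ t + 2 * r ≤ 4 ∧ ∀ i < r, f (t + r + i) = f (t + i) := by
  classical
  have hfin : (f '' Set.Iio 4).Finite := (Set.finite_Iio 4).image f
  by_contra hcon
  push Not at hcon
  have n01 : f 1 ≠ f 0 := by
    obtain ⟨i, hi, h1⟩ := hcon 0 1 (by omega) (by omega)
    obtain rfl : i = 0 := by omega
    exact h1
  have n12 : f 2 ≠ f 1 := by
    obtain ⟨i, hi, h1⟩ := hcon 1 1 (by omega) (by omega)
    obtain rfl : i = 0 := by omega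
    exact h1
  have n23 : f 3 ≠ f 2 := by
    obtain ⟨i, hi, h1⟩ := hcon 2 1 (by omega) (by omega)
    obtain rfl : i = 0 := by omega
    exact h1
  have hm : ∀ i < 4, f i ∈ f '' Set.Iio 4 := fun i hi => ⟨i, hi, rfl⟩
  have key : ∀ i < 4, ∀ j < 4, ∀ k < 4, f i ≠ f j → f k ≠ f j → f k = f i := by
    intro i hi j hj k hk h1 h2
    by_contra h3
    have h4 : ({f i, f j, f k} : Set X) ⊆ f '' Set.Iio 4 := by
      rintro x (rfl | rfl | rfl)
      · exact hm i hi
      · exact hm j hj
      · exact hm k hk
    have h5 := Set.ncard_le_ncard h4 hfin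
    have h6 : ({f i, f j, f k} : Set X).ncard = 3 := by
      rw [Set.ncard_eq_three]
      exact ⟨f i, f j, f k, h1, fun h => h3 h.symm, fun h => h2 h.symm, rfl⟩
    omega
  have h02 : f 2 = f 0 := key 0 (by omega) 1 (by omega) 2 (by omega) n01.symm n12
  have h13 : f 3 = f 1 := key 1 (by omega) 2 (by omega) 3 (by omega) n12.symm n23
  obtain ⟨i, hi, h1⟩ := hcon 0 2 (by omega) (by omega)
  interval_cases i
  · exact h1 h02
  · exact h1 h13

end Pool.Agent.U9.LT
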