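import Pool.Agent.U9.LT.Sub
import Pool.Agent.U9.LT.Three

set_option autoImplicit false

/-!
# Repetitions in words which are desubstituted infinitely often
-/

namespace Pool.Agent.U9.LT

/-- few different aligned blocks -/
theorem blocks_rep (d : ℕ → ℤ) (L s : ℕ)
    (h : ((fun j => fun i : Fin L => d (s + L * j + i)) '' Set.Iio 11).ncard ≤ 3) :
    ∃ t r m : ℕ, 0 < r ∧ r < 2 * m ∧ t + r + m ≤ 11 ∧
      ∀ k, s + L * t ≤ k → k < s + L * t + L * m → d (k + L * r) = d k := by
  obtain ⟨t, r, m, h1, h2, h3, h4⟩ := three' (fun j => fun i : Fin L => d (s + L * j + i)) h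
  refine ⟨t, r, m, h1, h2, h3, fun k hk1 hk2 => ?_⟩
  have hL : 0 < L := by
    rcases Nat.eq_zero_or_pos L with h0 | h0
    · subst h0; omega
    · exact h0
  obtain ⟨k', hk'⟩ : ∃ k', k' = k - (s + L * t) := ⟨_, rfl⟩
  have hk3 : k' < L * m := by omega
  have hdiv : k' / L < m := Nat.div_lt_of_lt_mul hk3
  have hmod : k' % L < L := Nat.mod_lt _ hL
  have h5 := congrFun (h4 (k' / L) hdiv) ⟨k' % L, hmod⟩
  simp only at h5
  have h6 : k' = L * (k' / L) + k' % L := (Nat.div_add_mod k' L).symm
  have h7 : s + L * (t + k' / L) + k' % L = k := by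
    rw [mul_add]
    omega
  have h8 : s + L * (t + r + k' / L) + k' % L = k + L * r := by
    rw [mul_add, mul_add]
    omega
  rw [h7, h8] at h5
  exact h5

/-- sequences given by an automaton -/
theorem auto_blocks {Q : Type} (k : ℕ) (hk : 0 < k) (δ : Q → ℕ → Q) (y : ℕ → Q)
    (hy : ∀ j i, i < k → y (k * j + i) = δ (y j) i) (n : ℕ) :
    ∀ j j', y j = y j' → ∀ i < k ^ n, y (k ^ n * j + i) = y (k ^ n * j' + i) := by
  induction n with
  | zero =>
    intro j j' h i hi
    have : i = 0 := by simpa using hi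
    subst this
    simpa using h
  | succ n ih =>
    intro j j' h i hi
    have hkn : 0 < k ^ n := pow_pos hk n
    obtain ⟨a, ha⟩ : ∃ a, a = i / k ^ n := ⟨_, rfl⟩
    obtain ⟨b, hb⟩ : ∃ b, b = i % k ^ n := ⟨_, rfl⟩
    have hab : i = k ^ n * a + b := by rw [ha, hb]; exact (Nat.div_add_mod _ _).symm
    have hb1 : b < k ^ n := by rw [hb]; exact Nat.mod_lt _ hkn
    have ha1 : a < k := by
      rw [ha]
      apply Nat.div_lt_of_lt_mul
      rw [pow_succ] at hi
      exact hi
    have h1 : y (k * j + a) = y (k * j' + a) := by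
      rw [hy j a ha1, hy j' a ha1, h]
    have h2 := ih _ _ h1 b hb1
    have h3 : ∀ l, k ^ (n + 1) * l + i = k ^ n * (k * l + a) + b := by
      intro l
      rw [hab, pow_succ]
      ring
    rw [h3, h3, h2]

theorem auto_ncard (k : ℕ) (hk : 0 < k) (δ : Fin 3 → ℕ → Fin 3) (y : ℕ → Fin 3)
    (hy : ∀ j i, i < k → y (k * j + i) = δ (y j) i) (f : Fin 3 → ℤ) (n : ℕ) :
    ((fun j => fun i : Fin (k ^ n) => f (y (0 + k ^ n * j + i))) '' Set.Iio 11).ncard ≤ 3 := by
  classical
  have h1 : ∃ g : Fin 3 → (Fin (k ^ n) → ℤ), ∀ j,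
      (fun i : Fin (k ^ n) => f (y (0 + k ^ n * j + i))) = g (y j) := by
    refine ⟨fun q => if h : ∃ j, y j = q then fun i => f (y (0 + k ^ n * h.choose + i)) else
      fun _ => 0, fun j => ?_⟩
    have h2 : ∃ j', y j' = y j := ⟨j, rfl⟩
    simp only [dif_pos h2]
    funext i
    rw [zero_add, zero_add]
    exact congrArg f (auto_blocks k hk δ y hy n j _ h2.choose_spec.symm i i.2)
  obtain ⟨g, hg⟩ := h1
  have h3 : ((fun j => fun i : Fin (k ^ n) => f (y (0 + k ^ n * j + i))) '' Set.Iio 11) ⊆
      g '' Set.univ := by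
    rintro _ ⟨j, _, rfl⟩
    exact ⟨y j, trivial, (hg j).symm⟩
  refine le_trans (Set.ncard_le_ncard h3 (Set.finite_univ.image g)) ?_
  refine le_trans (Set.ncard_image_le Set.finite_univ) ?_
  simp [Set.ncard_univ]

section tower

variable {A : ℕ → Type} {S : ∀ n, A (n + 1) → List (A n)} {y : ∀ n, ℕ → A n}

theorem down_occurs (hy : ∀ n w, Occurs (y (n + 1)) w → Occurs (y n) (w.flatMap (S n))) (n : ℕ) :
    ∀ w, Occurs (y n) w → Occurs (y 0) (down S n w) := by
  induction n with
  | zero => exact fun w h => h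
  | succ n ih => exact fun w h => ih _ (hy n w h)

theorem down_prefix (n : ℕ) {u v : List (A n)} (h : u <+: v) : down S n u <+: down S n v := by
  obtain ⟨t, rfl⟩ := h
  rw [down_append]
  exact List.prefix_append _ _

end tower

/-- the period of a word which occurs in `y` -/
theorem occurs_rep {A : Type} {y : ℕ → A} {u g : List A} (h : Occurs y (u ++ g))
    (hg : g <+: u ++ g) : ∃ t, ∀ i < g.length, y (t + i + u.length) = y (t + i) := by
  obtain ⟨t, ht⟩ := h
  refine ⟨t, fun i hi => ?_⟩
  have h1 := ht (i + u.length) (by rw [List.length_append]; omega)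
  have h2 := ht i (by rw [List.length_append]; omega)
  have h3 : (u ++ g)[i]'(by rw [List.length_append]; omega) = g[i] := by
    obtain ⟨s, hs⟩ := hg
    simp only [← hs]
    rw [List.getElem_append_left hi]
  have h4 : (u ++ g)[i + u.length]'(by rw [List.length_append]; omega) = g[i] := by
    rw [List.getElem_append_right (by omega)]
    congr 1
    omega
  rw [h4] at h1
  rw [h3] at h2
  rw [← h2, h1]
  congr 1
  omega

/-- squares on levels with at most two letters -/
theorem two_square {A : Type} (y : ℕ → A) (h : (y '' Set.Iio 4).ncard ≤ 2) :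
    ∃ (t : ℕ) (u : List A), Occurs y (u ++ u) ∧ y t ∈ u ∧ t < 4 := by
  obtain ⟨t, r, h1, h2, h3⟩ := two' y h
  refine ⟨t, (List.range r).map fun i => y (t + i), ⟨t, fun i hi => ?_⟩, ?_, by omega⟩
  · have hr : ((List.range r).map fun i => y (t + i)).length = r := by simp
    rw [List.length_append, hr] at hi
    rw [List.getElem_append]
    split_ifs with h4
    · simp
    · simp only [List.getElem_map, List.getElem_range, List.length_map, List.length_range]
      rw [hr] at h4
      rw [← h3 (i - r) (by omega)]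
      congr 1
      omega
  · rw [List.mem_map]
    exact ⟨0, List.mem_range.2 h1, by rw [add_zero]⟩

end Pool.Agent.U9.LT
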