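import Pool.Agent.U9.LT.Sub
import Pool.Agent.W13.LM.Digits

set_option autoImplicit false

/-!
# Codes which are desubstituted infinitely often
-/

namespace Pool.Agent.U9.LT

open Pool.Agent.W13.LM

/-- arbitrarily long mirror symmetric words in the digits -/
theorem lc_of_pal {α : ℝ} {a₀ : ℤ} {b q : ℕ → ℤ} {D : ℕ → ℝ} (E : Exp α a₀ b q D) (x : ℕ → ℤ)
    (B : ℝ) (hx : ∀ k, |(x k : ℝ)| ≤ B) {A : Type} (y : ℕ → A) (θ : A → A) (f : A → ℤ × ℤ) (σ : ℤ)
    (hσ : σ = 1 ∨ σ = -1) (hf : ∀ a, f (θ a) = ((f a).1, σ * (f a).2))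
    (hcode : ∀ k, f (y k) = (b k, x k))
    (h : ∀ L : ℕ, ∃ u : List A, Occurs y u ∧ mir θ u = u ∧ L ≤ u.length) :
    LC α (∑' k, (x k : ℝ) * D k) := by
  refine mirror_digits E x B hx fun K => ?_
  obtain ⟨u, ⟨t, ht⟩, h2, h3⟩ := h (2 * K + 3)
  refine ⟨2 * t + u.length - 3, σ, by omega, hσ, fun i j hij hi hj => ?_⟩
  have hi1 : t ≤ i + 1 := by omega
  have hi2 : i + 1 - t < u.length := by omega
  have hj2 : j + 1 - t < u.length := by omega
  have h4 : u[i + 1 - t] = y (i + 1) := by
    rw [ht _ hi2]
    congr 1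
    omega
  have h5 : u[j + 1 - t] = y (j + 1) := by
    rw [ht _ hj2]
    congr 1
    omega
  have h6 : y (i + 1) = θ (y (j + 1)) := by
    rw [← h4, ← h5]
    have h7 : (mir θ u)[i + 1 - t]'(by rw [h2]; exact hi2) = u[i + 1 - t] := by
      simp only [h2]
    rw [← h7]
    simp only [mir, List.getElem_map, List.getElem_reverse]
    congr 2
    omega
  have h8 := hcode (i + 1)
  rw [h6, hf, hcode (j + 1)] at h8
  have h9 := congrArg Prod.fst h8
  have h10 := congrArg Prod.snd h8
  exact ⟨h9.symm, h10.symm⟩

/-- `L c` is the morphism `c ↦ c`, `b ↦ c b` -/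
def Lm {A : Type} [DecidableEq A] (c b : A) : List A := if b = c then [c] else [c, b]

theorem compatible_Lm {A : Type} [DecidableEq A] (c : A) :
    Compatible (θ := (id : A → A)) (θ' := (id : A → A)) (Lm c) [c] := by
  refine ⟨fun _ => rfl, fun b => ?_, rfl, fun b => ?_⟩
  · unfold Lm; split_ifs <;> simp
  · show [c] ++ (Lm c b).reverse.map id = Lm c b ++ [c]
    by_cases h : b = c
    · simp [Lm, h]
    · simp [Lm, h]

/-- class `P` -/
theorem compatible_P {A : Type} (S : A → List A) (p : List A) (q : A → List A)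
    (hp : p.reverse = p) (hq : ∀ a, (q a).reverse = q a ∧ S a = p ++ q a)
    (hne : ∀ a, S a ≠ []) :
    Compatible (θ := (id : A → A)) (θ' := (id : A → A)) S p := by
  refine ⟨fun _ => rfl, hne, ?_, fun a => ?_⟩
  · simp [mir, hp]
  · simp only [mir, List.map_id, id]
    rw [(hq a).2, List.reverse_append, (hq a).1, hp, List.append_assoc]

/-- a fixed point of a substitution of class `P` -/
theorem fixed_pal {A : Type} (S : A → List A) (p : List A) (q : A → List A)
    (hp : p.reverse = p) (hq : ∀ a, (q a).reverse = q a ∧ S a = p ++ q a)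
    (h2 : ∀ a, 2 ≤ (S a).length) (y : ℕ → A) (hy : IsImage S y y) (L : ℕ) :
    ∃ u : List A, Occurs y u ∧ mir id u = u ∧ L ≤ u.length := by
  have hne : ∀ a, S a ≠ [] := fun a h => by
    have := h2 a
    rw [h] at this
    simp at this
  have hc := compatible_P S p q hp hq hne
  have hgrow : ∀ n : ℕ, ∀ w : List A, w ≠ [] → w.length + n ≤
      (down (A := fun _ => A) (fun _ => S) n w).length := by
    intro n
    induction n with
    | zero => intro w _; exact le_rfl
    | succ n ih =>
      intro w hw
      have h3 : w.length + 1 ≤ (w.flatMap S).length := by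
        obtain ⟨a, w, rfl⟩ := List.exists_cons_of_ne_nil hw
        rw [List.flatMap_cons, List.length_append, List.length_cons]
        have := h2 a
        have := length_flat hne w
        omega
      have h4 := ih (w.flatMap S) (by
        intro h5
        rw [h5] at h3
        simp at h3)
      show w.length + (n + 1) ≤ (down (A := fun _ => A) (fun _ => S) n (w.flatMap S)).length
      omega
  obtain ⟨u, h3, h4, h5⟩ := exists_pal (A := fun _ => A) (θ := fun _ => id) (S := fun _ => S)
    (p := fun _ => p) (y := fun _ => y) (fun _ => hc) (fun _ => hy.occurs) L [y 0]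
    ⟨0, fun i hi => by
      have : i = 0 := by simpa using hi
      subst this
      rfl⟩ rfl
  exact ⟨u, h3, h4, le_trans (le_trans (Nat.le_add_left _ _) (hgrow L [y 0] (by simp))) h5⟩

/-- episturmian words -/
theorem epi_pal {A : Type} [DecidableEq A] (c : ℕ → A) (y : ℕ → ℕ → A)
    (hy : ∀ n, IsImage (Lm (c n)) (y (n + 1)) (y n)) (hc : ∀ n, ∃ m, n < m ∧ c m ≠ c n) (L : ℕ) :
    ∃ u : List A, Occurs (y 0) u ∧ mir id u = u ∧ L ≤ u.length := by
  have hne : ∀ (n : ℕ) (b : A), Lm (c n) b ≠ [] := fun n b => (compatible_Lm (c n)).ne b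
  -- the letter `c n` occurs at level `n`
  have hocc : ∀ n, y n 0 = c n := by
    intro n
    have h1 := hy n 1 0 (by
      simp only [List.range_one, List.flatMap_cons, List.flatMap_nil, List.append_nil]
      exact List.length_pos_iff.2 (hne n _))
    rw [← h1]
    simp only [List.range_one, List.flatMap_cons, List.flatMap_nil, List.append_nil]
    unfold Lm
    split_ifs <;> rfl
  let ℓ : ∀ n : ℕ, A → ℕ := fun n b => (down (A := fun _ => A) (fun n => Lm (c n)) n [b]).length
  have hstep : ∀ n b, ℓ (n + 1) b = if b = c n then ℓ n (c n) else ℓ n (c n) + ℓ n b := by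
    intro n b
    show (down (A := fun _ => A) (fun n => Lm (c n)) n ([b].flatMap (Lm (c n)))).length = _
    rw [List.flatMap_cons, List.flatMap_nil, List.append_nil]
    unfold Lm
    split_ifs with h
    · rfl
    · show (down (A := fun _ => A) (fun n => Lm (c n)) n ([c n] ++ [b])).length = _
      rw [down_append (A := fun _ => A), List.length_append]
  have hpos : ∀ n b, 1 ≤ ℓ n b := fun n b =>
    length_down (A := fun _ => A) (S := fun n => Lm (c n)) hne n [b]
  have hmono : ∀ n, ℓ n (c n) ≤ ℓ (n + 1) (c (n + 1)) := by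
    intro n
    rw [hstep]
    split_ifs
    · exact le_rfl
    · exact Nat.le_add_right _ _
  have hmono' : ∀ n k, ℓ n (c n) ≤ ℓ (n + k) (c (n + k)) := by
    intro n k
    induction k with
    | zero => exact le_rfl
    | succ k ih => exact le_trans ih (hmono (n + k))
  have hinc : ∀ n, ∃ m, ℓ n (c n) < ℓ m (c m) := by
    intro n
    by_contra hcon
    push Not at hcon
    have hconst : ∀ k, c (n + k) = c n := by
      intro k
      induction k with
      | zero => rfl
      | succ k ih =>
        by_contra hne'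
        have h1 : c (n + k + 1) ≠ c (n + k) := fun h => hne' (by
          show c (n + k + 1) = c n
          rw [h, ih])
        have h2 := hstep (n + k) (c (n + k + 1))
        rw [if_neg h1] at h2
        have h3 := hcon (n + k + 1)
        have h4 := hmono' n k
        have h5 := hpos (n + k) (c (n + k + 1))
        omega
    obtain ⟨m, hm, hcm⟩ := hc n
    apply hcm
    rw [← hconst (m - n)]
    congr 1
    omega
  have hun : ∀ L, ∃ n, L ≤ ℓ n (c n) := by
    intro L
    induction L with
    | zero => exact ⟨0, Nat.zero_le _⟩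
    | succ L ih =>
      obtain ⟨n, hn⟩ := ih
      obtain ⟨m, hm⟩ := hinc n
      exact ⟨m, by omega⟩
  obtain ⟨n, hn⟩ := hun L
  obtain ⟨u, h3, h4, h5⟩ := exists_pal (A := fun _ => A) (θ := fun _ => id)
    (S := fun n => Lm (c n)) (p := fun n => [c n]) (y := y) (fun n => compatible_Lm (c n))
    (fun n => (hy n).occurs) n [c n]
    ⟨0, fun i hi => by
      have : i = 0 := by simpa using hi
      subst this
      exact (hocc n).symm⟩ rfl
  exact ⟨u, h3, h4, le_trans hn h5⟩

end Pool.Agent.U9.LT
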