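import Pool.Agent.U9.LT.Rep
import Pool.Agent.H380R2.CodeCF
import Pool.Agent.H380R2.CodeDigits

set_option autoImplicit false

/-!
# Codes with long cubes (the proof is that of the starting result
# `MP_0ea415_nt.RepetitiveCodes`)
-/

namespace Pool.Agent.U9.LT

open Pool.Agent.H380R2.LC

theorem code_cubes (α β : ℝ) (hα : Irrational α) (B : ℝ)
    (h : ∀ s : ℕ, ∃ (n : ℕ → ℤ) (r u : ℕ) (σ : ℤ), 1 ≤ r ∧ (σ = 1 ∨ σ = -1) ∧
      (∀ k, |(den α k : ℝ) * β - n k| ≤ B) ∧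
      ∀ k, u ≤ k → k < u + 2 * r + s →
        pq α (k + r + 1) = pq α (k + 1) ∧ code α n (k + r) = σ * code α n k) :
    ∀ ε : ℝ, 0 < ε → ∀ N : ℕ, ∃ q : ℕ, N ≤ q ∧ 0 < q ∧
      (q : ℝ) * |(q : ℝ) * α - (round ((q : ℝ) * α) : ℝ)|
        * |(q : ℝ) * β - (round ((q : ℝ) * β) : ℝ)| < ε := by
  intro ε hε N
  obtain ⟨t₁, ht₁⟩ := pow_unbounded_of_one_lt (32 * B / ε) (by norm_num : (1 : ℝ) < 2)
  set t : ℕ := t₁ + N with ht
  obtain ⟨n, r, u, σ, hr, hσ, hB, hper⟩ := h (4 * t + 2)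
  obtain ⟨q, hq1, hq2⟩ := one_denominator hα B n hB r u t hr σ hσ hper
  have h2t : N < 2 ^ t := lt_of_lt_of_le (Nat.lt_two_pow_self) (Nat.pow_le_pow_right (by norm_num)
    (by omega : N ≤ t))
  refine ⟨q, by omega, by omega, ?_⟩
  change prod α β q < ε
  have h3 : (2 : ℝ) ^ t₁ ≤ 2 ^ t := pow_le_pow_right₀ (by norm_num) (by omega)
  have h4 : 32 * B < ε * 2 ^ t := by
    rw [div_lt_iff₀ hε] at ht₁
    nlinarith
  have h5 : (0 : ℝ) < 2 ^ t := by positivity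
  by_contra hcon
  push Not at hcon
  have : 2 ^ t * ε ≤ 2 ^ t * prod α β q := mul_le_mul_of_nonneg_left hcon h5.le
  linarith

theorem digits_cubes (α β : ℝ) (hα : Irrational α) (x : ℕ → ℤ) (X : ℝ)
    (hX : ∀ k, |(x k : ℝ)| ≤ X)
    (hβ : HasSum (fun k => (x k : ℝ) * (den α k * α - num α k)) β)
    (h : ∀ s : ℕ, ∃ (r u : ℕ) (σ : ℤ), 1 ≤ r ∧ (σ = 1 ∨ σ = -1) ∧
      ∀ k, u < k → k ≤ u + 2 * r + s → pq α (k + r) = pq α k ∧ x (k + r) = σ * x k) :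
    ∀ ε : ℝ, 0 < ε → ∀ N : ℕ, ∃ q : ℕ, N ≤ q ∧ 0 < q ∧
      (q : ℝ) * |(q : ℝ) * α - (round ((q : ℝ) * α) : ℝ)|
        * |(q : ℝ) * β - (round ((q : ℝ) * β) : ℝ)| < ε := by
  apply code_cubes α β hα (4 * X)
  intro s
  obtain ⟨r, u, σ, hr, hσ, hper⟩ := h s
  refine ⟨nn α x, r, u, (-1) ^ r * σ, hr, ?_, digit_bound hα x X hX hβ, ?_⟩
  · rcases neg_one_pow_eq_or ℤ r with h1 | h1 <;> rcases hσ with rfl | rfl <;> simp [h1]
  · intro k h1 h2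
    obtain ⟨h3, h4⟩ := hper (k + 1) (by omega) (by omega)
    rw [show k + 1 + r = k + r + 1 by ring] at h3 h4
    refine ⟨h3, ?_⟩
    rw [code_nn, code_nn, h4]
    ring

end Pool.Agent.U9.LT
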