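import Pool.Agent.N759.CFr.SymFinal
import Pool.Agent.N759.CFr.Palin
import Pool.Agent.U9.LT.Rep

set_option autoImplicit false

/-!
# Continuants of repetitions, and symmetric powers of binary lattices
-/

namespace Pool.Agent.U9.LT

open Pool.Agent.N759.CFr Matrix Kronecker

section kont

variable {a : ℕ → ℤ} (ha : ∀ k, 1 ≤ a (k + 1))
include ha

theorem kont_pos (s n : ℕ) : 1 ≤ kont a (s + 1) n := by
  induction n using Nat.strong_induction_on with
  | _ n ih =>
    match n with
    | 0 => simp [kont]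
    | 1 => simpa [kont] using ha s
    | n + 2 =>
      rw [kont]
      have h1 := ih (n + 1) (by omega)
      have h2 := ih n (by omega)
      have h3 := ha (s + n + 1)
      rw [show s + n + 1 + 1 = s + 1 + n + 1 by ring] at h3
      nlinarith

theorem kont_step (s n : ℕ) : kont a (s + 1) (n + 1) + kont a (s + 1) n ≤
    kont a (s + 1) (n + 2) := by
  rw [kont]
  have h1 := kont_pos ha s (n + 1)
  have h3 := ha (s + n + 1)
  rw [show s + n + 1 + 1 = s + 1 + n + 1 by ring] at h3
  nlinarith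

theorem kont_mono (s n : ℕ) : kont a (s + 1) n ≤ kont a (s + 1) (n + 1) := by
  cases n with
  | zero => simpa [kont] using ha s
  | succ n =>
    have h1 := kont_step ha s n
    have h2 := kont_pos ha s n
    show kont a (s + 1) (n + 1) ≤ kont a (s + 1) (n + 2)
    omega

theorem kont_fib (s p j : ℕ) : (Nat.fib (j + 1) : ℤ) * kont a (s + 1) p ≤
    kont a (s + 1) (p + j) := by
  induction j using Nat.strong_induction_on with
  | _ j ih =>
    match j with
    | 0 => simp
    | 1 => simpa using kont_mono ha s p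
    | j + 2 =>
      have h1 := ih (j + 1) (by omega)
      have h2 := ih j (by omega)
      have h3 := kont_step ha s (p + j)
      have h4 : (Nat.fib (j + 2 + 1) : ℤ) = Nat.fib (j + 1) + Nat.fib (j + 1 + 1) := by
        exact_mod_cast Nat.fib_add_two
      rw [h4, add_mul]
      have h5 : p + (j + 2) = p + j + 2 := by ring
      have h6 : p + (j + 1) = p + j + 1 := by ring
      rw [h5]
      rw [h6] at h1
      linarith

theorem kont_growth (s p j : ℕ) : (j : ℤ) * kont a (s + 1) p ≤ kont a (s + 1) (p + j) := by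
  refine le_trans ?_ (kont_fib ha s p j)
  have h1 : j ≤ Nat.fib (j + 1) := by
    have := Nat.le_fib_add_one (j + 1)
    omega
  have h2 := kont_pos ha s p
  have h3 : (j : ℤ) ≤ Nat.fib (j + 1) := by exact_mod_cast h1
  nlinarith

end kont

/-- The product of the linear forms given by the rows of `Sym^k g ⊗ G` takes arbitrarily small
values at nonzero integer points, for every invertible `g` whose first row is proportional to
`(α, 1)` and for all square matrices `G`. -/
def SmallValues (α : ℝ) (k : ℕ) : Prop :=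
  ∀ g : Matrix (Fin 2) (Fin 2) ℝ, g.det ≠ 0 → g 0 0 = α * g 0 1 →
    ∀ n : ℕ, 0 < n → ∀ (G : Matrix (Fin n) (Fin n) ℝ) (ε : ℝ), 0 < ε →
      ∃ x : Fin (k + 1) × Fin n → ℤ, x ≠ 0 ∧
        |∏ i, ((symM k g ⊗ₖ G) *ᵥ fun j => (x j : ℝ)) i| < ε

variable {α : ℝ}

/-- overlaps -/
theorem small_overlap (hα : Irrational α) {A : Type} (y : ℕ → A) (f : A → ℤ)
    (hc : ∀ k, pq α (k + 1) = f (y k))
    (h : ∀ K : ℕ, ∃ u g : List A, Occurs y (u ++ (u ++ g)) ∧ u ++ g <+: u ++ (u ++ g) ∧
      0 < u.length ∧ K ≤ g.length) (k : ℕ) (hk : 2 ≤ k) : SmallValues α k := by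
  intro g hdet hg n hn G ε hε
  refine sym_small hα k hk (Or.inl fun C => ?_) g hdet hg n hn G ε hε
  obtain ⟨K, hK⟩ := exists_nat_gt C
  obtain ⟨u, v, h1, h2, h3, h4⟩ := h K
  obtain ⟨t, ht⟩ := occurs_rep h1 h2
  refine ⟨t + 1, u.length, u.length + v.length, by omega, h3, fun j hj => ?_, ?_⟩
  · rw [show t + 1 + u.length + j = t + j + u.length + 1 by ring,
      show t + 1 + j = t + j + 1 by ring, hc, hc, ht j (by rw [List.length_append]; exact hj)]
  · have h5 := kont_growth (a := pq α) (fun k => one_le_pq hα k) t u.length v.length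
    have h6 := kont_pos (a := pq α) (fun k => one_le_pq hα k) t u.length
    have h7 : ((v.length : ℤ) : ℝ) * (kont (pq α) (t + 1) u.length : ℝ) ≤
        (kont (pq α) (t + 1) (u.length + v.length) : ℝ) := by exact_mod_cast h5
    have h8 : (1 : ℝ) ≤ (kont (pq α) (t + 1) u.length : ℝ) := by exact_mod_cast h6
    have h9 : (K : ℝ) ≤ ((v.length : ℤ) : ℝ) := by exact_mod_cast h4
    have h10 : C * (kont (pq α) (t + 1) u.length : ℝ) <
        ((v.length : ℤ) : ℝ) * (kont (pq α) (t + 1) u.length : ℝ) :=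
      mul_lt_mul_of_pos_right (lt_of_lt_of_le hK h9) (by linarith)
    linarith

/-- squares -/
theorem small_square (hα : Irrational α) {A : Type} (y : ℕ → A) (f : A → ℤ)
    (hc : ∀ k, pq α (k + 1) = f (y k))
    (h : ∀ K : ℕ, ∃ u : List A, Occurs y (u ++ u) ∧ K ≤ u.length) (k : ℕ) (hk : 2 ≤ k)
    (hev : Even k) : SmallValues α k := by
  intro g hdet hg n hn G ε hε
  refine sym_small hα k hk (Or.inr ⟨hev, fun C => ?_⟩) g hdet hg n hn G ε hε
  obtain ⟨K, hK⟩ := exists_nat_gt C
  obtain ⟨u, h1, h4⟩ := h (K + 1)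
  obtain ⟨t, ht⟩ := occurs_rep h1 (List.prefix_append _ _)
  refine ⟨t + 1, u.length, u.length, by omega, by omega, fun j hj => ?_, ?_⟩
  · rw [show t + 1 + u.length + j = t + j + u.length + 1 by ring,
      show t + 1 + j = t + j + 1 by ring, hc, hc, ht j hj]
  · have h5 := kont_growth (a := pq α) (fun k => one_le_pq hα k) t 0 u.length
    have h6 := kont_pos (a := pq α) (fun k => one_le_pq hα k) t u.length
    rw [zero_add, show kont (pq α) (t + 1) 0 = 1 by rfl, mul_one] at h5
    have h7 : ((u.length : ℤ) : ℝ) ≤ (kont (pq α) (t + 1) u.length : ℝ) := by exact_mod_cast h5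
    have h8 : (1 : ℝ) ≤ (kont (pq α) (t + 1) u.length : ℝ) := by exact_mod_cast h6
    have h9 : (K : ℝ) + 1 ≤ ((u.length : ℤ) : ℝ) := by exact_mod_cast h4
    have h11 : (0 : ℝ) < (kont (pq α) (t + 1) u.length : ℝ) ^ (k / 2) := by positivity
    rw [pow_succ, mul_comm]
    refine mul_lt_mul_of_pos_left ?_ h11
    linarith

/-- palindromes -/
theorem small_pal (hα : Irrational α) {A : Type} (y : ℕ → A) (f : A → ℤ)
    (hc : ∀ k, pq α (k + 1) = f (y k)) (θ : A → A) (hf : ∀ a, f (θ a) = f a)
    (h : ∀ L : ℕ, ∃ u : List A, Occurs y u ∧ mir θ u = u ∧ L ≤ u.length) (k : ℕ) (hk : 2 ≤ k)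
    (hev : Even k) : SmallValues α k := by
  intro g hdet hg n hn G ε hε
  obtain ⟨m, hm⟩ := hev
  have hm' : k = 2 * m := by omega
  subst hm'
  refine pal_small hα ?_ m (by omega) g hdet hg n hn G ε hε
  intro N
  obtain ⟨u, ⟨t, ht⟩, h2, h3⟩ := h N
  refine ⟨t + 1, u.length, h3, fun j hj => ?_⟩
  rw [show t + 1 + j = t + j + 1 by ring,
    show t + 1 + (u.length - 1 - j) = t + (u.length - 1 - j) + 1 by ring, hc, hc,
    ← ht j hj, ← ht (u.length - 1 - j) (by omega)]
  have h7 : (mir θ u)[j]'(by rw [h2]; exact hj) = u[j] := by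
    simp only [h2]
  rw [← h7]
  simp only [mir, List.getElem_map, List.getElem_reverse]
  rw [hf]

end Pool.Agent.U9.LT
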