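import Mathlib

set_option autoImplicit false

/-!
# Mirror images in words which are desubstituted infinitely often
-/

namespace Pool.Agent.U9.LT

/-- the word `w` occurs in the infinite word `y` -/
def Occurs {A : Type} (y : ℕ → A) (w : List A) : Prop :=
  ∃ t : ℕ, ∀ i (h : i < w.length), w[i] = y (t + i)

/-- the mirror image of `w`, with the letters changed by `θ` -/
def mir {A : Type} (θ : A → A) (w : List A) : List A := w.reverse.map θ

/-- Applying the substitution `S` to a mirror image is, up to conjugation by the word `p`, the same
as taking the mirror image of the substituted word. -/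
structure Compatible {A B : Type} (θ : A → A) (θ' : B → B) (S : B → List A) (p : List A) :
    Prop where
  inv : ∀ b, θ' (θ' b) = b
  ne : ∀ b, S b ≠ []
  mir_p : mir θ p = p
  conj : ∀ b, p ++ mir θ (S b) = S (θ' b) ++ p

/-- `y` is the infinite word `S (z 0) S (z 1) S (z 2) ...` -/
def IsImage {A B : Type} (S : B → List A) (z : ℕ → B) (y : ℕ → A) : Prop :=
  ∀ m i : ℕ, ∀ h : i < ((List.range m).flatMap fun k => S (z k)).length,
    ((List.range m).flatMap fun k => S (z k))[i] = y i

/-- the word obtained from a word of level `n` by applying the substitutions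
`S (n - 1), ..., S 1, S 0` -/
def down {A : ℕ → Type} (S : ∀ n, A (n + 1) → List (A n)) : ∀ n, List (A n) → List (A 0)
  | 0, w => w
  | n + 1, w => down S n (w.flatMap (S n))

section basic

variable {A B : Type} {θ : A → A} {θ' : B → B} {S : B → List A} {p : List A}

theorem mir_append (u v : List A) : mir θ (u ++ v) = mir θ v ++ mir θ u := by
  simp [mir]

theorem Compatible.flat (h : Compatible θ θ' S p) (w : List B) :
    p ++ mir θ (w.flatMap S) = (mir θ' w).flatMap S ++ p := by
  induction w with
  | nil => simp [mir]
  | cons b w ih =>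
    rw [List.flatMap_cons, mir_append, ← List.append_assoc, ih, List.append_assoc, h.conj,
      ← List.append_assoc]
    congr 1
    simp [mir]

theorem Compatible.pal (h : Compatible θ θ' S p) {w : List B} (hw : mir θ' w = w) :
    mir θ (w.flatMap S ++ p) = w.flatMap S ++ p := by
  rw [mir_append, h.mir_p, h.flat, hw]

theorem Compatible.pre (h : Compatible θ θ' S p) (v : List B) :
    p <+: v.flatMap S ++ p := by
  induction v with
  | nil => simp
  | cons b v ih =>
    obtain ⟨t, ht⟩ := ih
    refine ⟨mir θ (S (θ' b)) ++ t, ?_⟩
    rw [List.flatMap_cons, List.append_assoc, ← ht, ← List.append_assoc, h.conj, h.inv,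
      List.append_assoc]

theorem length_flat (hne : ∀ b, S b ≠ []) (v : List B) : v.length ≤ (v.flatMap S).length := by
  induction v with
  | nil => simp
  | cons b v ih =>
    rw [List.flatMap_cons, List.length_append, List.length_cons]
    have := List.length_pos_iff.2 (hne b)
    omega

theorem Occurs.ext {z : ℕ → B} {w : List B} (h : Occurs z w) (m : ℕ) :
    ∃ v : List B, v.length = m ∧ Occurs z (w ++ v) := by
  obtain ⟨t, ht⟩ := h
  refine ⟨(List.range m).map fun i => z (t + w.length + i), by simp, t, ?_⟩
  intro i hi
  rw [List.getElem_append]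
  split_ifs with h1
  · exact ht i h1
  · simp only [List.getElem_map, List.getElem_range]
    congr 1
    omega

theorem Occurs.left {y : ℕ → A} {u v : List A} (h : Occurs y (u ++ v)) : Occurs y u := by
  obtain ⟨t, ht⟩ := h
  refine ⟨t, fun i hi => ?_⟩
  have := ht i (by rw [List.length_append]; omega)
  rw [List.getElem_append_left hi] at this
  exact this

theorem Compatible.step (h : Compatible θ θ' S p) {y : ℕ → A} {z : ℕ → B}
    (hS : ∀ w, Occurs z w → Occurs y (w.flatMap S)) {w : List B} (hw : Occurs z w) :
    Occurs y (w.flatMap S ++ p) := by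
  obtain ⟨v, hv, hwv⟩ := hw.ext p.length
  have h1 := hS _ hwv
  rw [List.flatMap_append] at h1
  have h2 : p <+: v.flatMap S := by
    refine List.prefix_of_prefix_length_le (h.pre v) (List.prefix_append _ _) ?_
    rw [← hv]
    exact length_flat h.ne v
  obtain ⟨t, ht⟩ := h2
  rw [← ht, ← List.append_assoc] at h1
  exact h1.left

theorem IsImage.occurs {z : ℕ → B} {y : ℕ → A} (h : IsImage S z y) (w : List B)
    (hw : Occurs z w) : Occurs y (w.flatMap S) := by
  obtain ⟨t, ht⟩ := hw
  refine ⟨((List.range t).flatMap fun k => S (z k)).length, fun i hi => ?_⟩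
  have h1 : (List.range (t + w.length)).flatMap (fun k => S (z k)) =
      ((List.range t).flatMap fun k => S (z k)) ++ w.flatMap S := by
    rw [List.range_add, List.flatMap_append]
    congr 1
    rw [List.flatMap_map]
    have h2 : w = (List.range w.length).map fun i => z (t + i) := by
      apply List.ext_getElem
      · simp
      · intro i h3 h4
        simp only [List.getElem_map, List.getElem_range]
        exact ht i h3
    conv_rhs => rw [h2]
    rw [List.flatMap_map]
  have h3 := h (t + w.length) (((List.range t).flatMap fun k => S (z k)).length + i) (by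
    rw [h1, List.length_append]
    omega)
  rw [← h3]
  simp only [h1]
  rw [List.getElem_append_right (by omega)]
  simp

end basic

section tower

variable {A : ℕ → Type} {θ : ∀ n, A n → A n} {S : ∀ n, A (n + 1) → List (A n)}
  {p : ∀ n, List (A n)} {y : ∀ n, ℕ → A n}

theorem down_append (n : ℕ) (u v : List (A n)) :
    down S n (u ++ v) = down S n u ++ down S n v := by
  induction n with
  | zero => rfl
  | succ n ih =>
    show down S n ((u ++ v).flatMap (S n)) = down S n (u.flatMap (S n)) ++ down S n (v.flatMap (S n))
    rw [List.flatMap_append, ih]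

theorem exists_pal (hc : ∀ n, Compatible (θ n) (θ (n + 1)) (S n) (p n))
    (hy : ∀ n w, Occurs (y (n + 1)) w → Occurs (y n) (w.flatMap (S n))) (n : ℕ) :
    ∀ w : List (A n), Occurs (y n) w → mir (θ n) w = w →
      ∃ u : List (A 0), Occurs (y 0) u ∧ mir (θ 0) u = u ∧ (down S n w).length ≤ u.length := by
  induction n with
  | zero => exact fun w h1 h2 => ⟨w, h1, h2, le_rfl⟩
  | succ n ih =>
    intro w h1 h2
    obtain ⟨u, h3, h4, h5⟩ := ih (w.flatMap (S n) ++ p n) ((hc n).step (hy n) h1) ((hc n).pal h2)
    refine ⟨u, h3, h4, le_trans ?_ h5⟩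
    rw [down_append, List.length_append]
    exact Nat.le_add_right _ _

theorem length_down (hne : ∀ n b, S n b ≠ []) (n : ℕ) (w : List (A n)) :
    w.length ≤ (down S n w).length := by
  induction n with
  | zero => exact le_rfl
  | succ n ih => exact le_trans (length_flat (hne n) w) (ih _)

end tower

end Pool.Agent.U9.LT
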